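import Pool.Agent.Run7.h991.MU.Iface

set_option autoImplicit false

/-! Project MU (helper991), piece LPR. -/

namespace H991.MU

theorem fact_le_prod (S : Finset ℕ) : (∀ x ∈ S, 1 ≤ x) → S.card.factorial ≤ ∏ x ∈ S, x := by
  induction S using Finset.induction_on_max with
  | empty => simp
  | insert a s hs ih =>
    intro h
    have ha : a ∉ s := fun h1 => lt_irrefl a (hs a h1)
    have hsub : s ⊆ Finset.Ico 1 a := by
      intro x hx
      rw [Finset.mem_Ico]
      exact ⟨h x (Finset.mem_insert_of_mem hx), hs x hx⟩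
    have h1 := Finset.card_le_card hsub
    rw [Nat.card_Ico] at h1
    have h2 := h a (Finset.mem_insert_self a s)
    rw [Finset.card_insert_of_notMem ha, Finset.prod_insert ha, Nat.factorial_succ]
    exact Nat.mul_le_mul (by omega) (ih fun x hx => h x (Finset.mem_insert_of_mem hx))

theorem pow_le_fact (n : ℕ) : ((n : ℝ) / 3) ^ n ≤ n.factorial := by
  have h1 := Real.pow_div_factorial_le_exp (n : ℝ) (Nat.cast_nonneg n) n
  have hf : (0 : ℝ) < n.factorial := by exact_mod_cast Nat.factorial_pos n
  rw [div_le_iff₀ hf] at h1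
  have h2 : Real.exp n ≤ 3 ^ n := by
    have h3 : Real.exp (n : ℝ) = Real.exp 1 ^ n := by
      rw [← Real.exp_nat_mul, mul_one]
    rw [h3]
    exact pow_le_pow_left₀ (Real.exp_pos 1).le (by linarith [Real.exp_one_lt_d9]) n
  rw [div_pow, div_le_iff₀ (by positivity)]
  calc (n : ℝ) ^ n ≤ Real.exp n * n.factorial := h1
    _ ≤ 3 ^ n * n.factorial := mul_le_mul_of_nonneg_right h2 hf.le
    _ = _ := by ring

theorem t_LPR : S_LPR := by
  intro B i hi
  set K := B.filter (fun j => j < i) with hK
  set L := B.filter (fun j => i < j) with hL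
  have hdis : Disjoint K L := by
    rw [Finset.disjoint_left]
    intro j h1 h2
    rw [hK, Finset.mem_filter] at h1
    rw [hL, Finset.mem_filter] at h2
    omega
  have hun : B.erase i = K ∪ L := by
    ext j
    rw [Finset.mem_erase, Finset.mem_union, hK, hL, Finset.mem_filter, Finset.mem_filter]
    constructor
    · rintro ⟨h1, h2⟩
      rcases lt_or_gt_of_ne h1 with h | h
      · exact Or.inl ⟨h2, h⟩
      · exact Or.inr ⟨h2, h⟩
    · rintro (⟨h1, h2⟩ | ⟨h1, h2⟩)
      · exact ⟨h2.ne, h1⟩
      · exact ⟨h2.ne', h1⟩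
  have hcard : K.card + L.card = B.card - 1 := by
    rw [← Finset.card_union_of_disjoint hdis, ← hun, Finset.card_erase_of_mem hi]
  have hpos : 1 ≤ B.card := Finset.card_pos.2 ⟨i, hi⟩
  have hKp : (K.card.factorial : ℝ) ≤ ∏ j ∈ K, |(i : ℝ) - (j : ℝ)| := by
    have h1 := fact_le_prod (K.image fun j => i - j) (by
      intro x hx
      obtain ⟨j, hj, rfl⟩ := Finset.mem_image.1 hx
      have := (Finset.mem_filter.1 hj).2
      omega)
    have hinj : Set.InjOn (fun j => i - j) (K : Set ℕ) := by
      intro a ha b hb hab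
      have h2 := (Finset.mem_filter.1 (Finset.mem_coe.1 ha)).2
      have h3 := (Finset.mem_filter.1 (Finset.mem_coe.1 hb)).2
      simp only at hab
      omega
    rw [Finset.card_image_of_injOn hinj, Finset.prod_image hinj] at h1
    have h2 : ((∏ j ∈ K, (i - j) : ℕ) : ℝ) = ∏ j ∈ K, |(i : ℝ) - (j : ℝ)| := by
      rw [Nat.cast_prod]
      refine Finset.prod_congr rfl fun j hj => ?_
      have h3 := (Finset.mem_filter.1 hj).2
      rw [Nat.cast_sub h3.le, abs_of_nonneg]
      have : (j : ℝ) < i := by exact_mod_cast h3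
      linarith
    rw [← h2]
    exact_mod_cast h1
  have hLp : (L.card.factorial : ℝ) ≤ ∏ j ∈ L, |(i : ℝ) - (j : ℝ)| := by
    have h1 := fact_le_prod (L.image fun j => j - i) (by
      intro x hx
      obtain ⟨j, hj, rfl⟩ := Finset.mem_image.1 hx
      have := (Finset.mem_filter.1 hj).2
      omega)
    have hinj : Set.InjOn (fun j => j - i) (L : Set ℕ) := by
      intro a ha b hb hab
      have h2 := (Finset.mem_filter.1 (Finset.mem_coe.1 ha)).2
      have h3 := (Finset.mem_filter.1 (Finset.mem_coe.1 hb)).2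
      simp only at hab
      omega
    rw [Finset.card_image_of_injOn hinj, Finset.prod_image hinj] at h1
    have h2 : ((∏ j ∈ L, (j - i) : ℕ) : ℝ) = ∏ j ∈ L, |(i : ℝ) - (j : ℝ)| := by
      rw [Nat.cast_prod]
      refine Finset.prod_congr rfl fun j hj => ?_
      have h3 := (Finset.mem_filter.1 hj).2
      have : (i : ℝ) < j := by exact_mod_cast h3
      rw [Nat.cast_sub h3.le, abs_of_neg (by linarith)]
      ring
    rw [← h2]
    exact_mod_cast h1
  rw [hun, Finset.prod_union hdis]
  have hcast : (B.card : ℝ) - 1 = ((K.card + L.card : ℕ) : ℝ) := by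
    rw [hcard, Nat.cast_sub hpos, Nat.cast_one]
  rw [hcast, ← hcard]
  set n := K.card + L.card with hn
  have hch : (n.factorial : ℝ) ≤ 2 ^ n * (K.card.factorial * L.card.factorial) := by
    have h1 := Nat.add_choose_mul_factorial_mul_factorial K.card L.card
    have h2 : (K.card + L.card).choose L.card ≤ 2 ^ n := Nat.choose_le_two_pow n L.card
    have h3 : n.factorial ≤ 2 ^ n * (K.card.factorial * L.card.factorial) := by
      rw [hn, ← h1, mul_assoc]
      exact Nat.mul_le_mul_right _ h2
    exact_mod_cast h3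
  have h0 := pow_le_fact n
  have h6 : ((n : ℝ) / 6) ^ n * 2 ^ n = ((n : ℝ) / 3) ^ n := by
    rw [← mul_pow]
    congr 1
    ring
  have h7 : ((n : ℝ) / 6) ^ n ≤ K.card.factorial * L.card.factorial := by
    have h8 : ((n : ℝ) / 6) ^ n * 2 ^ n ≤ (K.card.factorial * L.card.factorial) * 2 ^ n := by
      rw [h6]
      linarith
    exact le_of_mul_le_mul_right h8 (by positivity)
  exact h7.trans (mul_le_mul hKp hLp (by positivity) (Finset.prod_nonneg fun j _ => abs_nonneg _))

end H991.MU
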